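import Pool.Agent.Helper42.DB.Goals2

set_option autoImplicit false

/-!
# Packet LINEPAIR (MP_48f005_an)
-/

namespace Pool.Agent.Helper42.DB.PkLINEPAIR

open Set Filter Topology

variable {S : Sys}

/-- Extension of a finite word to an infinite one. -/
def exw {α : Type} (a : ℕ) (f : Fin (a + 1) → α) : ℕ → α :=
  fun k => f ⟨min k a, by omega⟩

lemma exw_apply {α : Type} (a : ℕ) (f : Fin (a + 1) → α) (k : ℕ) (hk : k ≤ a) :
    exw a f k = f ⟨k, by omega⟩ := by
  simp only [exw]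
  congr 1
  apply Fin.ext
  simp [hk]

/-- Trajectories with the same initial state agree. -/
lemma det {n : ℕ} {w w' : ℕ → S.ι} {z z' : ℕ → St S} (hF : G_FLB S) (h : Cyl n w z)
    (h' : Cyl n w' z') (h0 : z 0 = z' 0) : ∀ k ≤ n, z k = z' k := by
  intro k
  induction k with
  | zero => intro _; exact h0
  | succ k ih =>
    intro hk
    have h1 := ih (by omega)
    have h2 := h.1.2 k (by omega)
    have h3 := h'.1.2 k (by omega)
    rw [← h1] at h3
    exact hF.2.2 _ _ _ h2 h3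

lemma land1 {x y : St S} {X : ℂ} {θ : ℝ} (h : Fl x y) (hX : X ∈ openSegment ℝ x.pos y.pos)
    (he : ee x.th = ee θ) : Lnd X θ y := by
  obtain ⟨_, hy, hb, t, ht, hp, hs⟩ := h
  obtain ⟨α, β, hα, hβ, hαβ, hX⟩ := hX
  rw [he] at hb hp hs
  have hX2 : X = x.pos + (β * t) • ee θ := by
    rw [← hX, hp, smul_add, smul_smul, ← add_assoc, ← add_smul, hαβ, one_smul]
  have hβ1 : β < 1 := by linarith
  have hbt : 0 < β * t := mul_pos hβ ht
  have hbt1 : β * t < t := by nlinarith
  refine ⟨hy, hb, t - β * t, by linarith, ?_, ?_⟩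
  · rw [hX2, hp, add_assoc, ← add_smul]
    congr 2; ring
  · intro s hs'
    have := hs (β * t + s) ⟨by linarith [hs'.1], by linarith [hs'.2]⟩
    rw [hX2, add_assoc, ← add_smul]
    exact this

lemma land2 {x y : St S} {X : ℂ} {θ : ℝ} (h : Fl x y) (hX : X ∈ openSegment ℝ x.pos y.pos)
    (he : ee x.th = ee θ) : Lnd X (θ + Real.pi) x.rev := by
  refine land1 h.rev ?_ ?_
  · rw [St.rev_pos, St.rev_pos, openSegment_symm]; exact hX
  · rw [St.rev_th, ee_add_pi, ← he, h.2.2.1, neg_neg]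

theorem thm (S : Sys) : G_FLB S → G_PAIRS → G_LINEPAIR S := by
  intro hF hP a b θ Λ A1 A2 h1 h2
  classical
  set T : Set (Fin (a + 1) → S.ι) := res a '' {w | PW S a w} with hT
  have : Fintype T := Fintype.ofFinite _
  let I : T → Set ℝ := fun f => {l : ℝ | l ∈ Λ ∧ ∃ z : ℕ → St S, Cyl a (exw a f.1) z ∧
    Lnd (b l) (θ l) (z 0) ∧ A1 (z 0)}
  let J : T → Set ℝ := fun f => {l : ℝ | l ∈ Λ ∧ ∃ z : ℕ → St S, Cyl a (exw a f.1) z ∧
    Lnd (b l) (θ l + Real.pi) (z 0) ∧ A2 (z 0)}
  have key : ∀ (f f' : T) (z z' : ℕ → St S), Cyl a (exw a f.1) z → Cyl a (exw a f'.1) z' →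
      z 0 = z' 0 → f = f' := by
    intro f f' z z' hz hz' h0
    have hd := det hF hz hz' h0
    apply Subtype.ext
    funext j
    have hj : (j : ℕ) ≤ a := by omega
    have e1 := hz.2 j hj
    have e2 := hz'.2 j hj
    rw [hd j hj, e2] at e1
    rw [exw_apply a _ _ hj, exw_apply a _ _ hj] at e1
    exact e1.symm
  have hPP := hP T T I J (fun f => h1 _) (fun f => h2 _)
    (by
      intro f f' hne
      rw [Set.disjoint_left]
      rintro l ⟨_, z, hz, hl, _⟩ ⟨_, z', hz', hl', _⟩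
      exact hne (key f f' z z' hz hz' (hF.2.1 _ _ _ _ hl hl')))
    (by
      intro f f' hne
      rw [Set.disjoint_left]
      rintro l ⟨_, z, hz, hl, _⟩ ⟨_, z', hz', hl', _⟩
      exact hne (key f f' z z' hz hz' (hF.2.1 _ _ _ _ hl hl')))
  have hcard : Fintype.card T = AW S a := by
    rw [← Nat.card_eq_fintype_card, Nat.card_coe_set_eq]
    rfl
  rw [hcard, ← two_mul] at hPP
  refine le_trans ?_ hPP
  have himg : Set.ncard ((Prod.map Subtype.val Subtype.val : T × T → _ × _) ''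
      {x : T × T | (I x.1 ∩ J x.2).Nonempty}) =
      Set.ncard {x : T × T | (I x.1 ∩ J x.2).Nonempty} :=
    Set.ncard_image_of_injective _
      (Function.Injective.prodMap Subtype.val_injective Subtype.val_injective)
  rw [← himg]
  unfold cnt
  refine Set.ncard_le_ncard_of_injOn
    (fun v : Fin (2 * a + 1 + 1) → S.ι =>
      ((fun j : Fin (a + 1) => v ⟨a + 1 + j, by omega⟩),
        (fun j : Fin (a + 1) => v ⟨a - j, by omega⟩))) ?_ ?_ (Set.toFinite _)
  · rintro v ⟨w, ⟨l, hl, z, hz, hb, hth, hA1, hA2⟩, rfl⟩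
    have hfl : Fl (z a) (z (a + 1)) := hz.1.2 a (by omega)
    have c1 : Cyl a (fun k => w (a + 1 + k)) (fun k => z (a + 1 + k)) :=
      hz.shift (by omega)
    have c2 : Cyl a (fun k => w (a - k)) (fun k => (z (a - k)).rev) :=
      (hz.mono (by omega : a ≤ 2 * a + 1)).rev
    refine ⟨(⟨fun j : Fin (a + 1) => w (a + 1 + j), ⟨fun k => w (a + 1 + k), ⟨_, c1⟩, rfl⟩⟩,
      ⟨fun j : Fin (a + 1) => w (a - j), ⟨fun k => w (a - k), ⟨_, c2⟩, rfl⟩⟩), ?_, rfl⟩
    refine ⟨l, ⟨hl, fun k => z (a + 1 + k), ?_, ?_, ?_⟩, ⟨hl, fun k => (z (a - k)).rev, ?_, ?_, ?_⟩⟩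
    · exact c1.congr (fun k hk =>
        (exw_apply a (fun j : Fin (a + 1) => w (a + 1 + j)) k hk).symm)
    · exact land1 hfl hb hth
    · exact hA1
    · exact c2.congr (fun k hk =>
        (exw_apply a (fun j : Fin (a + 1) => w (a - j)) k hk).symm)
    · exact land2 hfl hb hth
    · exact hA2
  · intro v _ v' _ hvv
    have e1 := congrArg Prod.fst hvv
    have e2 := congrArg Prod.snd hvv
    simp only at e1 e2
    funext j
    by_cases hj : (j : ℕ) ≤ a
    · have := congrFun e2 ⟨a - j, by omega⟩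
      simp only at this
      have h3 : a - (a - (j : ℕ)) = j := by omega
      simp only [h3] at this
      exact this
    · have := congrFun e1 ⟨j - (a + 1), by omega⟩
      simp only at this
      have h3 : a + 1 + ((j : ℕ) - (a + 1)) = j := by omega
      simp only [h3] at this
      exact this

end Pool.Agent.Helper42.DB.PkLINEPAIR
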