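import Pool.Agent.Helper42.DB.Goals3

set_option autoImplicit false

/-!
# Packet R2 (MP_48f005_an)
-/

namespace Pool.Agent.Helper42.DB.PkR2

open Set Filter Topology

/-- `dt v` as a continuous linear map. -/
noncomputable def dL (v : ℂ) : ℂ →L[ℝ] ℝ := v.re • Complex.reCLM + v.im • Complex.imCLM

lemma dL_apply (v z : ℂ) : dL v z = dt v z := by simp [dL, dt]

lemma hasDeriv_dt (c : Crv) (v w : ℂ) (u : ℝ) :
    HasDerivAt (fun t => dt v (c.G t - w)) (c.R u * dt v (tt u)) u := by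
  have h := (dL v).hasFDerivAt.comp_hasDerivAt u ((c.der u).sub_const w)
  have h2 : (dL v) ((c.R u : ℝ) • tt u) = c.R u * dt v (tt u) := by
    rw [dL_apply, dt_smul_right]
  rw [h2] at h
  have h3 : (⇑(dL v) ∘ fun t => c.G t - w) = fun t => dt v (c.G t - w) := by
    funext t; simp only [Function.comp_apply, dL_apply]
  rw [h3] at h
  exact h

lemma dt_tt_tt (a b : ℝ) : dt (tt a) (tt b) = Real.cos (b - a) := by
  simp only [dt, tt_re, tt_im, Real.cos_sub]; ring

lemma dt_tt_ee (a b : ℝ) : dt (tt a) (ee b) = Real.sin (b - a) := by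
  simp only [dt, tt_re, tt_im, ee_re, ee_im, Real.sin_sub]; ring

lemma decomp (e : ℝ) (v : ℂ) : v = dt (ee e) v • ee e + dt (tt e) v • tt e := by
  have h := Real.sin_sq_add_cos_sq e
  apply Complex.ext
  · simp only [dt, Complex.add_re, Complex.smul_re, ee_re, ee_im, tt_re, tt_im, smul_eq_mul]
    linear_combination (-v.re) * h
  · simp only [dt, Complex.add_im, Complex.smul_im, ee_re, ee_im, tt_re, tt_im, smul_eq_mul]
    linear_combination (-v.im) * h

/-- The curve is behind its tangent. -/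
lemma behind (c : Crv) (u v : ℝ) (h : |v - u| ≤ Real.pi) : dt (ee u) (c.G v - c.G u) ≤ 0 := by
  have hder : ∀ t, HasDerivAt (fun t => dt (ee u) (c.G t - c.G u)) (c.R t * dt (ee u) (tt t)) t :=
    fun t => hasDeriv_dt c (ee u) (c.G u) t
  have hcont : Continuous (fun t => dt (ee u) (c.G t - c.G u)) :=
    continuous_iff_continuousAt.mpr fun t => (hder t).continuousAt
  have hdiff : Differentiable ℝ (fun t => dt (ee u) (c.G t - c.G u)) :=
    fun t => (hder t).differentiableAt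
  rcases le_total u v with huv | huv
  · have hanti : AntitoneOn (fun t => dt (ee u) (c.G t - c.G u)) (Icc u (u + Real.pi)) := by
      apply antitoneOn_of_deriv_nonpos (convex_Icc _ _) hcont.continuousOn
        hdiff.differentiableOn
      intro t ht
      rw [interior_Icc] at ht
      rw [(hder t).deriv, dt_ee_tt]
      have : 0 ≤ Real.sin (t - u) :=
        Real.sin_nonneg_of_nonneg_of_le_pi (by linarith [ht.1]) (by linarith [ht.2])
      have := c.nonneg t
      nlinarith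
    have h1 := hanti (left_mem_Icc.mpr (by linarith [Real.pi_pos]))
      (show v ∈ Icc u (u + Real.pi) from ⟨huv, by have := (abs_le.mp h).2; linarith⟩) huv
    simp only [sub_self, dt_zero_right] at h1
    exact h1
  · have hmono : MonotoneOn (fun t => dt (ee u) (c.G t - c.G u)) (Icc (u - Real.pi) u) := by
      apply monotoneOn_of_deriv_nonneg (convex_Icc _ _) hcont.continuousOn
        hdiff.differentiableOn
      intro t ht
      rw [interior_Icc] at ht
      rw [(hder t).deriv, dt_ee_tt]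
      have : Real.sin (t - u) ≤ 0 :=
        Real.sin_nonpos_of_nonpos_of_neg_pi_le (by linarith [ht.2]) (by linarith [ht.1])
      have := c.nonneg t
      nlinarith
    have h1 := hmono (show v ∈ Icc (u - Real.pi) u from
      ⟨by have := (abs_le.mp h).1; linarith, huv⟩) (right_mem_Icc.mpr (by linarith [Real.pi_pos]))
      huv
    simp only [sub_self, dt_zero_right] at h1
    exact h1

lemma cos_half {x : ℝ} (h0 : 0 ≤ x) (h1 : x ≤ 1) : 1 / 2 ≤ Real.cos x := by
  have := Real.one_sub_sq_div_two_le_cos (x := x)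
  nlinarith

/-- Local form of the curve at an end point. -/
lemma germ (c : Crv) (r0 r1 : ℝ) (hr0 : 0 < r0) (h0 : ∀ u, r0 ≤ c.R u) (h1 : ∀ u, c.R u ≤ r1)
    (e s : ℝ) (hs : s = 1 ∨ s = -1) (η : ℝ) (hη : 0 < η) (hη1 : η ≤ 1) (x : ℝ) (hx : 0 < x)
    (hx1 : x < r0 / 2 * η) : ∃ h y, 0 < h ∧ h < η ∧ 0 < y ∧ y ≤ (4 * r1 / r0 ^ 2) * x ^ 2 ∧
      c.G (e + s * h) = c.G e + x • (s • tt e) - y • ee e := by
  have hr1 : 0 < r1 := lt_of_lt_of_le hr0 ((h0 0).trans (h1 0))
  have hlin : ∀ h : ℝ, HasDerivAt (fun h : ℝ => e + s * h) s h := fun h => by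
    simpa using ((hasDerivAt_id h).const_mul s).const_add e
  have hX : ∀ h, HasDerivAt (fun h => dt (s • tt e) (c.G (e + s * h) - c.G e))
      (c.R (e + s * h) * Real.cos h) h := by
    intro h
    have h2 := (hasDeriv_dt c (s • tt e) (c.G e) (e + s * h)).comp h (hlin h)
    have h3 : c.R (e + s * h) * dt (s • tt e) (tt (e + s * h)) * s =
        c.R (e + s * h) * Real.cos h := by
      rw [dt_smul_left, dt_tt_tt]
      rcases hs with rfl | rfl
      · simp
      · have : e + -1 * h - e = -h := by ring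
        rw [this, Real.cos_neg]; ring
    rw [h3] at h2
    exact h2
  have hY : ∀ h, HasDerivAt (fun h => dt (-ee e) (c.G (e + s * h) - c.G e))
      (c.R (e + s * h) * Real.sin h) h := by
    intro h
    have h2 := (hasDeriv_dt c (-ee e) (c.G e) (e + s * h)).comp h (hlin h)
    have h3 : c.R (e + s * h) * dt (-ee e) (tt (e + s * h)) * s =
        c.R (e + s * h) * Real.sin h := by
      rw [dt_neg_left, dt_ee_tt]
      rcases hs with rfl | rfl
      · simp
      · have : e + -1 * h - e = -h := by ring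
        rw [this, Real.sin_neg]; ring
    rw [h3] at h2
    exact h2
  set X : ℝ → ℝ := fun h => dt (s • tt e) (c.G (e + s * h) - c.G e) with hXd
  set Y : ℝ → ℝ := fun h => dt (-ee e) (c.G (e + s * h) - c.G e) with hYd
  have hXc : Continuous X := continuous_iff_continuousAt.mpr fun t => (hX t).continuousAt
  have hYc : Continuous Y := continuous_iff_continuousAt.mpr fun t => (hY t).continuousAt
  have hX0 : X 0 = 0 := by simp [hXd]
  have hY0 : Y 0 = 0 := by simp [hYd]
  have hXl : ∀ h, 0 ≤ h → h ≤ 1 → r0 / 2 * h ≤ X h := by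
    intro h hh hh1
    have := Convex.mul_sub_le_image_sub_of_le_deriv (convex_Icc (0 : ℝ) h) hXc.continuousOn
      (fun t _ => (hX t).differentiableAt.differentiableWithinAt) (C := r0 / 2)
      (by
        intro t ht
        rw [interior_Icc] at ht
        rw [(hX t).deriv]
        have h4 := cos_half ht.1.le (by linarith [ht.2])
        have h5 := h0 (e + s * t)
        nlinarith)
      0 (left_mem_Icc.mpr hh) h (right_mem_Icc.mpr hh) hh
    rw [hX0] at this
    linarith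
  have hmem : x ∈ Ioo (X 0) (X η) := ⟨by rw [hX0]; exact hx, hx1.trans_le (hXl η hη.le hη1)⟩
  obtain ⟨h, hh, hxh⟩ := intermediate_value_Ioo hη.le hXc.continuousOn hmem
  have hh1 : h ≤ 1 := by linarith [hh.2]
  have hhx : h ≤ 2 * x / r0 := by
    have := hXl h hh.1.le hh1
    rw [hxh] at this
    rw [le_div_iff₀ hr0]
    linarith
  have hYpos : 0 < Y h := by
    have hm : StrictMonoOn Y (Icc 0 h) := by
      apply strictMonoOn_of_deriv_pos (convex_Icc _ _) hYc.continuousOn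
      intro t ht
      rw [interior_Icc] at ht
      rw [(hY t).deriv]
      have h4 : 0 < Real.sin t := Real.sin_pos_of_pos_of_lt_pi ht.1
        (by have := Real.pi_gt_three; linarith [ht.2])
      have h5 := h0 (e + s * t)
      exact mul_pos (by linarith) h4
    have := hm (left_mem_Icc.mpr hh.1.le) (right_mem_Icc.mpr hh.1.le) hh.1
    rwa [hY0] at this
  have hYle : Y h ≤ r1 * h * h := by
    have := Convex.image_sub_le_mul_sub_of_deriv_le (convex_Icc (0 : ℝ) h) hYc.continuousOn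
      (fun t _ => (hY t).differentiableAt.differentiableWithinAt) (C := r1 * h)
      (by
        intro t ht
        rw [interior_Icc] at ht
        rw [(hY t).deriv]
        have h4 : Real.sin t ≤ t := Real.sin_le ht.1.le
        have h4' : 0 ≤ Real.sin t := Real.sin_nonneg_of_nonneg_of_le_pi ht.1.le
          (by have := Real.pi_gt_three; linarith [ht.2])
        have h5 := h1 (e + s * t)
        exact mul_le_mul h5 (h4.trans ht.2.le) h4' hr1.le)
      0 (left_mem_Icc.mpr hh.1.le) h (right_mem_Icc.mpr hh.1.le) hh.1.le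
    rw [hY0] at this
    linarith
  refine ⟨h, Y h, hh.1, hh.2, hYpos, ?_, ?_⟩
  · have h6 : h * h ≤ (2 * x / r0) * (2 * x / r0) := mul_le_mul hhx hhx hh.1.le (hh.1.le.trans hhx)
    have h7 : r1 * (h * h) ≤ r1 * ((2 * x / r0) * (2 * x / r0)) :=
      mul_le_mul_of_nonneg_left h6 hr1.le
    have h8 : r1 * ((2 * x / r0) * (2 * x / r0)) = 4 * r1 / r0 ^ 2 * x ^ 2 := by
      field_simp; ring
    linarith
  · have h9 := decomp e (c.G (e + s * h) - c.G e)
    have h10 : dt (ee e) (c.G (e + s * h) - c.G e) = -Y h := by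
      simp only [hYd, dt_neg_left, neg_neg]
    have h11 : dt (tt e) (c.G (e + s * h) - c.G e) = s * x := by
      have : x = s * dt (tt e) (c.G (e + s * h) - c.G e) := by
        rw [← hxh]; simp only [hXd, dt_smul_left]
      rw [this]
      rcases hs with rfl | rfl <;> ring
    rw [h10, h11] at h9
    have h12 : c.G (e + s * h) = c.G e + (c.G (e + s * h) - c.G e) := by ring
    rw [h12, h9, smul_smul, mul_comm x s]
    simp only [neg_smul]
    ring

variable {C : CTab}

lemma nbhd_dt (w : ℝ) (N : ℂ) (hN : 0 < dt (ee w) N) :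
    ∃ ε > 0, ∀ v, |v - w| < ε → 0 < dt (ee v) N := by
  have hc : Continuous (fun v => dt (ee v) N) := continuous_dt continuous_ee continuous_const
  have := hc.continuousAt.eventually (lt_mem_nhds hN)
  obtain ⟨ε, hε, h⟩ := Metric.eventually_nhds_iff.mp this
  exact ⟨ε, hε, fun v hv => h (by rwa [Real.dist_eq])⟩

lemma sideT (hL : G_LSIDE C) (k : C.ι) (w : ℝ) (hw : C.Rg k w) (N : ℂ)
    (hN : 0 < dt (ee w) N) : ∃ δ > 0, ∀ y ∈ Ioo (0 : ℝ) δ, C.g k w - y • N ∉ C.Y := by
  obtain ⟨ε, hε, hε2⟩ := nbhd_dt w N hN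
  obtain ⟨δ, hδ, hz⟩ := hL k w hw (min ε Real.pi) (lt_min hε Real.pi_pos)
  refine ⟨δ / (‖N‖ + 1), by positivity, fun y hy => ?_⟩
  have hyN : y * ‖N‖ < δ := by
    have h1 := hy.2
    rw [lt_div_iff₀ (by positivity)] at h1
    nlinarith [hy.1, norm_nonneg N]
  obtain ⟨v, r, hv, hr, hzz, -, hno⟩ := hz (C.g k w - y • N) (by
    rw [Metric.mem_ball, dist_eq_norm]
    have : C.g k w - y • N - C.g k w = -(y • N) := by ring
    rw [this, norm_neg, norm_smul, Real.norm_eq_abs, abs_of_pos hy.1]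
    exact hyN)
  apply hno
  have hv1 : |v - w| < ε := hv.trans_le (min_le_left _ _)
  have hv2 : |w - v| ≤ Real.pi := by rw [abs_sub_comm]; exact (hv.trans_le (min_le_right _ _)).le
  have h1 : dt (ee v) (C.g k w - y • N - C.g k v) = r := by
    rw [hzz]
    have : C.g k v + r • ee v - C.g k v = r • ee v := by ring
    rw [this, dt_smul_right, dt_self, norm_ee]; ring
  have h2 : C.g k w - y • N - C.g k v = (C.g k w - C.g k v) - y • N := by ring
  rw [h2, dt_sub_right, dt_smul_right] at h1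
  have h3 := behind (C.crv k) v w hv2
  have h4 := mul_pos hy.1 (hε2 v hv1)
  have h5 : dt (ee v) (C.g k w - C.g k v) ≤ 0 := h3
  linarith

lemma sideT' (hL : G_LSIDE C) (k : C.ι) (w : ℝ) (hw : C.Rg k w) (N : ℂ)
    (hN : 0 < dt (ee w) N) : ∃ δ > 0, ∀ y ∈ Ioo (0 : ℝ) δ, C.g k w + y • N ∈ C.Y := by
  obtain ⟨δ, hδ, hz⟩ := hL k w hw (Real.pi / 2) (by positivity)
  refine ⟨δ / (‖N‖ + 1), by positivity, fun y hy => ?_⟩
  have hyN : y * ‖N‖ < δ := by
    have h1 := hy.2
    rw [lt_div_iff₀ (by positivity)] at h1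
    nlinarith [hy.1, norm_nonneg N]
  obtain ⟨v, r, hv, hr, hzz, hyes, -⟩ := hz (C.g k w + y • N) (by
    rw [Metric.mem_ball, dist_eq_norm]
    have : C.g k w + y • N - C.g k w = y • N := by ring
    rw [this, norm_smul, Real.norm_eq_abs, abs_of_pos hy.1]
    exact hyN)
  apply hyes
  by_contra hr0
  push Not at hr0
  have h1 : C.g k w + y • N - C.g k w = (C.g k v - C.g k w) + r • ee v := by rw [hzz]; ring
  have h1' : C.g k w + y • N - C.g k w = y • N := by ring
  have h2 : dt (ee w) (y • N) = dt (ee w) (C.g k v - C.g k w) + r * Real.cos (v - w) := by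
    rw [← h1', h1, dt_add_right, dt_smul_right, dt_ee_ee]
  rw [dt_smul_right] at h2
  have h3 : dt (ee w) (C.g k v - C.g k w) ≤ 0 := behind (C.crv k) w v
    (by have := Real.pi_pos; linarith)
  have h4 := mul_pos hy.1 hN
  have h5 : 0 ≤ Real.cos (v - w) := Real.cos_nonneg_of_mem_Icc
    ⟨by have := (abs_lt.mp hv).1; linarith, by have := (abs_lt.mp hv).2; linarith⟩
  nlinarith

/-- The topmost point of the complement between two points. -/
lemma between (Y : Set ℂ) (hY : IsOpen Y) (Z : ℝ → ℂ) (hZ : Continuous Z) (y1 y2 : ℝ)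
    (h12 : y1 < y2) (h1 : ∃ δ > 0, ∀ y ∈ Ioo y1 (y1 + δ), Z y ∉ Y)
    (h2 : ∃ δ > 0, ∀ y ∈ Ioo (y2 - δ) y2, Z y ∈ Y) :
    ∃ y, y1 < y ∧ y < y2 ∧ Z y ∈ frontier Y ∧ ∃ δ > 0, ∀ y' ∈ Ioo y (y + δ), Z y' ∈ Y := by
  obtain ⟨δ1, hδ1, h1⟩ := h1
  obtain ⟨δ2, hδ2, h2⟩ := h2
  set S : Set ℝ := {y | y1 < y ∧ y < y2 ∧ Z y ∉ Y} with hS
  obtain ⟨y0, hy0⟩ : ∃ y0, y0 ∈ S ∧ y1 < y0 := by
    refine ⟨y1 + min δ1 (y2 - y1) / 2, ⟨?_, ?_, h1 _ ⟨?_, ?_⟩⟩, ?_⟩
    all_goals
      have ha := min_le_left δ1 (y2 - y1)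
      have hb := min_le_right δ1 (y2 - y1)
      have hc : 0 < min δ1 (y2 - y1) := lt_min hδ1 (by linarith)
      linarith
  have hbd : BddAbove S := ⟨y2, fun y hy => hy.2.1.le⟩
  have hub : ∀ y ∈ S, y ≤ y2 - δ2 := by
    intro y hy
    by_contra hcon
    push Not at hcon
    exact hy.2.2 (h2 y ⟨hcon, hy.2.1⟩)
  have hne : S.Nonempty := ⟨y0, hy0.1⟩
  have hs1 : y1 < sSup S := lt_of_lt_of_le hy0.2 (le_csSup hbd hy0.1)
  have hs2 : sSup S ≤ y2 - δ2 := csSup_le hne hub
  have hcl : Z (sSup S) ∉ Y := by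
    have hm := csSup_mem_closure hne hbd
    have hcl2 : IsClosed (Z ⁻¹' Yᶜ) := hY.isClosed_compl.preimage hZ
    have : closure S ⊆ Z ⁻¹' Yᶜ := closure_minimal (fun y hy => hy.2.2) hcl2
    exact this hm
  have hin : ∀ y' ∈ Ioo (sSup S) y2, Z y' ∈ Y := by
    intro y' hy'
    by_contra hcon
    have : y' ∈ S := ⟨hs1.trans hy'.1, hy'.2, hcon⟩
    have := le_csSup hbd this
    linarith [hy'.1]
  refine ⟨sSup S, hs1, by linarith, ?_, y2 - sSup S, by linarith, fun y' hy' => hin y'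
    ⟨hy'.1, by linarith [hy'.2]⟩⟩
  rw [frontier, hY.interior_eq]
  refine ⟨?_, hcl⟩
  have hmem : sSup S ∈ closure (Ioo (sSup S) y2) := by
    rw [closure_Ioo (by linarith)]
    exact ⟨le_rfl, by linarith⟩
  have := hZ.continuousWithinAt.mem_closure_image hmem
  exact closure_mono (by rintro _ ⟨y', hy', rfl⟩; exact hin y' hy') this

lemma core2 (hL : G_LSIDE C) (P : ℂ) (s e K x0 : ℝ) (hs : s = 1 ∨ s = -1) (hx0 : 0 < x0)
    (hQ : ∀ x ∈ Ioo 0 x0, ∃ y, 0 < y ∧ y ≤ K * x ^ 2 ∧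
      P + x • (s • tt e) - y • ee e ∈ frontier C.Y ∧
      ∃ δ > 0, ∀ y' ∈ Ioo y (y + δ), P + x • (s • tt e) - y' • ee e ∈ C.Y)
    (hcorner : ∀ k w, w ∈ Icc (C.A k) (C.B k) → C.g k w = P →
      ¬C.closed k ∧ (w = C.A k ∨ w = C.B k)) : False := by
  have : Fintype C.ι := C.fin
  set U := Ultrafilter.of (𝓝[>] (0 : ℝ)) with hUd
  have hU : (U : Filter ℝ) ≤ 𝓝[>] 0 := Ultrafilter.of_le _
  have e1 : ∀ᶠ x in (U : Filter ℝ), x ∈ Ioo 0 x0 := hU (Ioo_mem_nhdsGT hx0)
  have e2 : ∀ᶠ x in (U : Filter ℝ), ∃ k : C.ι, ∃ q : ℝ × ℝ, q.1 ∈ Icc (C.A k) (C.B k) ∧ 0 < q.2 ∧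
      q.2 ≤ K * x ^ 2 ∧ C.g k q.1 = P + x • (s • tt e) - q.2 • ee e ∧
      ∃ δ > 0, ∀ y' ∈ Ioo q.2 (q.2 + δ), P + x • (s • tt e) - y' • ee e ∈ C.Y := by
    filter_upwards [e1] with x hx
    obtain ⟨y, hy0, hyK, hfr, hδ⟩ := hQ x hx
    rw [C.bdry, mem_iUnion] at hfr
    obtain ⟨k, w, hw, hwz⟩ := hfr
    exact ⟨k, (w, y), hw, hy0, hyK, hwz, hδ⟩
  rw [Ultrafilter.eventually_exists_iff] at e2
  obtain ⟨k, hk⟩ := e2
  rw [Filter.skolem] at hk
  obtain ⟨q, hq⟩ := hk
  have hwI : (U.map (fun x => (q x).1) : Filter ℝ) ≤ 𝓟 (Icc (C.A k) (C.B k)) := by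
    rw [le_principal_iff]
    exact hq.mono fun x hx => hx.1
  obtain ⟨w0, hw0, hlim⟩ := isCompact_Icc.ultrafilter_le_nhds _ hwI
  have hw : Tendsto (fun x => (q x).1) (U : Filter ℝ) (𝓝 w0) := hlim
  have hx : Tendsto (fun x : ℝ => x) (U : Filter ℝ) (𝓝 0) := hU.trans nhdsWithin_le_nhds
  have hx2 : Tendsto (fun x : ℝ => K * x ^ 2) (U : Filter ℝ) (𝓝 0) := by
    have := (hx.pow 2).const_mul K
    simpa using this
  have hy : Tendsto (fun x => (q x).2) (U : Filter ℝ) (𝓝 0) :=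
    tendsto_of_tendsto_of_tendsto_of_le_of_le' tendsto_const_nhds hx2
      (hq.mono fun x hx => hx.2.1.le) (hq.mono fun x hx => hx.2.2.1)
  -- the limit point is a corner
  have hGw : Tendsto (fun x => C.g k (q x).1) (U : Filter ℝ) (𝓝 (C.g k w0)) :=
    ((C.crv k).continuous.tendsto w0).comp hw
  have hPP : Tendsto (fun x : ℝ => P + x • (s • tt e) - (q x).2 • ee e) (U : Filter ℝ) (𝓝 P) := by
    have h1 := (hx.smul_const (s • tt e)).const_add P
    have h2 := hy.smul_const (ee e)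
    have := h1.sub h2
    simpa using this
  have hgP : C.g k w0 = P := by
    refine tendsto_nhds_unique hGw (hPP.congr' ?_)
    exact hq.mono fun x hx => hx.2.2.2.1.symm
  obtain ⟨hnc, hend⟩ := hcorner k w0 hw0 hgP
  -- coordinates
  have hdN : ∀ x y : ℝ, dt (ee e) (P + x • (s • tt e) - y • ee e - P) = -y := by
    intro x y
    have : P + x • (s • tt e) - y • ee e - P = x • (s • tt e) - y • ee e := by ring
    rw [this, dt_sub_right, dt_smul_right, dt_smul_right, dt_smul_right, dt_self, norm_ee, dt_ee_tt]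
    simp
  have hdd : ∀ x y : ℝ, dt (s • tt e) (P + x • (s • tt e) - y • ee e - P) = x := by
    intro x y
    have : P + x • (s • tt e) - y • ee e - P = x • (s • tt e) - y • ee e := by ring
    rw [this, dt_sub_right, dt_smul_right, dt_smul_right, dt_smul_right, dt_smul_left,
      dt_smul_left, dt_self, norm_tt, dt_tt_ee]
    rcases hs with rfl | rfl <;> simp
  have hq' : ∀ᶠ x in (U : Filter ℝ), (q x).1 ≠ w0 := by
    filter_upwards [hq, e1] with x hqx hx1 hcon
    rw [hcon, hgP] at hqx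
    have h1 := hdd x (q x).2
    rw [← hqx.2.2.2.1] at h1
    simp only [sub_self, dt_zero_right] at h1
    linarith [hx1.1]
  have hwne : Tendsto (fun x => (q x).1) (U : Filter ℝ) (𝓝[≠] w0) :=
    tendsto_nhdsWithin_iff.mpr ⟨hw, hq'⟩
  have hs1 := (hasDerivAt_iff_tendsto_slope.mp (hasDeriv_dt (C.crv k) (ee e) P w0)).comp hwne
  have hs2 := (hasDerivAt_iff_tendsto_slope.mp (hasDeriv_dt (C.crv k) (s • tt e) P w0)).comp hwne
  have hs1' : Tendsto (fun x => (-(q x).2) / ((q x).1 - w0)) (U : Filter ℝ)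
      (𝓝 ((C.crv k).R w0 * dt (ee e) (tt w0))) := by
    refine hs1.congr' ?_
    filter_upwards [hq] with x hqx
    have h1 : (C.crv k).G w0 = P := hgP
    have h2 : (C.crv k).G (q x).1 = P + x • (s • tt e) - (q x).2 • ee e := hqx.2.2.2.1
    simp only [Function.comp_apply, slope_def_field, h1, h2, hdN, sub_self, dt_zero_right, sub_zero]
  have hs2' : Tendsto (fun x => x / ((q x).1 - w0)) (U : Filter ℝ)
      (𝓝 ((C.crv k).R w0 * dt (s • tt e) (tt w0))) := by
    refine hs2.congr' ?_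
    filter_upwards [hq] with x hqx
    have h1 : (C.crv k).G w0 = P := hgP
    have h2 : (C.crv k).G (q x).1 = P + x • (s • tt e) - (q x).2 • ee e := hqx.2.2.2.1
    simp only [Function.comp_apply, slope_def_field, h1, h2, hdd, sub_self, dt_zero_right, sub_zero]
  have hzero : Tendsto (fun x => (-(q x).2) / ((q x).1 - w0)) (U : Filter ℝ) (𝓝 0) := by
    have h1 : Tendsto (fun x : ℝ => K * (|x / ((q x).1 - w0)| * x)) (U : Filter ℝ) (𝓝 0) := by
      have := (hs2'.abs.mul hx).const_mul K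
      simpa using this
    refine squeeze_zero_norm' ?_ h1
    filter_upwards [hq, e1, hq'] with x hqx hx1 hne
    rw [Real.norm_eq_abs, abs_div, abs_neg, abs_of_pos hqx.2.1, abs_div, abs_of_pos hx1.1]
    have h3 : 0 < |(q x).1 - w0| := abs_pos.mpr (sub_ne_zero.mpr hne)
    rw [div_le_iff₀ h3]
    have h4 : K * (x / |(q x).1 - w0| * x) * |(q x).1 - w0| = K * x ^ 2 := by
      field_simp
    rw [h4]
    exact hqx.2.2.1
  have hRpos : 0 < (C.crv k).R w0 := lt_of_lt_of_le C.r0_pos (C.le_R k w0)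
  have hsin : Real.sin (w0 - e) = 0 := by
    have h1 := tendsto_nhds_unique hs1' hzero
    rw [dt_ee_tt] at h1
    have := hRpos.ne'
    rcases mul_eq_zero.mp h1 with h2 | h2
    · exact absurd h2 this
    · linarith
  have hee : ee w0 = Real.cos (w0 - e) • ee e := by
    have h1 := decomp e (ee w0)
    rw [dt_ee_ee, dt_tt_ee, hsin, zero_smul, add_zero] at h1
    exact h1
  have hcos : Real.cos (w0 - e) = 1 ∨ Real.cos (w0 - e) = -1 := by
    have h1 := Real.sin_sq_add_cos_sq (w0 - e)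
    rw [hsin] at h1
    have h2 : (Real.cos (w0 - e) - 1) * (Real.cos (w0 - e) + 1) = 0 := by nlinarith
    rcases mul_eq_zero.mp h2 with h3 | h3
    · left; linarith
    · right; linarith
  rcases hcos with hcos | hcos
  · -- same normal
    rw [hcos, one_smul] at hee
    have hpos : 0 < dt (ee w0) (ee e) := by rw [hee, dt_self, norm_ee]; norm_num
    obtain ⟨ε, hε, hε2⟩ := nbhd_dt w0 (ee e) hpos
    have hnear : ∀ᶠ x in (U : Filter ℝ), |(q x).1 - w0| < min ε (C.B k - C.A k) := by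
      have := hw.eventually (Metric.ball_mem_nhds w0
        (lt_min hε (sub_pos.mpr (C.hAB k)) : 0 < min ε (C.B k - C.A k)))
      filter_upwards [this] with x hx1
      rw [Real.dist_eq] at hx1
      exact hx1
    obtain ⟨x, hqx, hne, hnx⟩ := (hq.and (hq'.and hnear)).exists
    have hne2 : C.A k < (q x).1 ∧ (q x).1 < C.B k := by
      have hn2 := hnx.trans_le (min_le_right _ _)
      have hab := abs_lt.mp hn2
      rcases hend with h | h
      · refine ⟨lt_of_le_of_ne hqx.1.1 (fun hh => hne (by rw [h]; exact hh.symm)), ?_⟩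
        rw [h] at hab; linarith [hab.2]
      · refine ⟨?_, lt_of_le_of_ne hqx.1.2 (fun hh => hne (by rw [h]; exact hh))⟩
        rw [h] at hab; linarith [hab.1]
    obtain ⟨δ, hδ, hT⟩ := sideT hL k (q x).1 (Or.inr hne2) (ee e)
      (hε2 _ (hnx.trans_le (min_le_left _ _)))
    obtain ⟨δ', hδ', hY⟩ := hqx.2.2.2.2
    have hm : 0 < min δ δ' := lt_min hδ hδ'
    have hm1 := min_le_left δ δ'
    have hm2 := min_le_right δ δ'
    apply hT (min δ δ' / 2) ⟨by linarith, by linarith⟩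
    have h3 := hY ((q x).2 + min δ δ' / 2) ⟨by linarith, by linarith⟩
    rw [hqx.2.2.2.1]
    have h4 : P + x • s • tt e - (q x).2 • ee e - (min δ δ' / 2) • ee e =
        P + x • s • tt e - ((q x).2 + min δ δ' / 2) • ee e := by
      rw [add_smul]; ring
    rw [h4]; exact h3
  · -- opposite normal
    rw [hcos] at hee
    have hnear : ∀ᶠ x in (U : Filter ℝ), |(q x).1 - w0| < Real.pi := by
      have := hw.eventually (Metric.ball_mem_nhds w0 Real.pi_pos)
      filter_upwards [this] with x hx1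
      rw [Real.dist_eq] at hx1
      exact hx1
    obtain ⟨x, hqx, hnx⟩ := (hq.and hnear).exists
    have h1 := behind (C.crv k) w0 (q x).1 hnx.le
    have h2 : (C.crv k).G (q x).1 = P + x • (s • tt e) - (q x).2 • ee e := hqx.2.2.2.1
    have h3 : (C.crv k).G w0 = P := hgP
    rw [h2, h3, hee, dt_smul_left, hdN] at h1
    linarith [hqx.2.1]

/-- End parameter. -/
def IsEnd (C : CTab) (k : C.ι) (s e : ℝ) : Prop := (s = 1 ∧ e = C.A k) ∨ (s = -1 ∧ e = C.B k)

lemma closed_AB (k : C.ι) (hk : C.closed k) : C.g k (C.B k) = C.g k (C.A k) := by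
  have := (C.per k hk).2 (C.A k)
  have h2 : C.A k + (C.B k - C.A k) = C.B k := by ring
  rw [h2] at this
  exact this

lemma exists_reg_closed (k : C.ι) (hk : C.closed k) (w : ℝ) (hw : w ∈ Icc (C.A k) (C.B k)) :
    ∃ u, C.A k ≤ u ∧ u < C.B k ∧ C.g k u = C.g k w := by
  rcases hw.2.lt_or_eq with h | h
  · exact ⟨w, hw.1, h, rfl⟩
  · exact ⟨C.A k, le_rfl, C.hAB k, by rw [h, closed_AB k hk]⟩

lemma core (hL : G_LSIDE C) (i j : C.ι) (hij : i ≠ j) (s ei ej : ℝ) (hei : IsEnd C i s ei)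
    (hej : IsEnd C j s ej) (hP : C.g i ei = C.g j ej) (hN : ee ei = ee ej) : False := by
  have hs : s = 1 ∨ s = -1 := by
    rcases hei with h | h
    · exact Or.inl h.1
    · exact Or.inr h.1
  have hiI : ei ∈ Icc (C.A i) (C.B i) := by
    have := (C.hAB i).le
    rcases hei with h | h
    · rw [h.2]; exact ⟨le_rfl, this⟩
    · rw [h.2]; exact ⟨this, le_rfl⟩
  have hjI : ej ∈ Icc (C.A j) (C.B j) := by
    have := (C.hAB j).le
    rcases hej with h | h
    · rw [h.2]; exact ⟨le_rfl, this⟩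
    · rw [h.2]; exact ⟨this, le_rfl⟩
  -- general comparison with a regular parameter
  have hreg : ∀ (k l : C.ι) (u v : ℝ), (C.A k ≤ u ∧ u < C.B k ∧ (¬C.closed k → C.A k < u)) →
      v ∈ Icc (C.A l) (C.B l) → C.g k u = C.g l v → k = l := by
    intro k l u v hu hv huv
    by_cases hl : C.closed l
    · obtain ⟨v', h1, h2, h3⟩ := exists_reg_closed l hl v hv
      exact (C.simple k l u v' hu ⟨h1, h2.le, fun _ => h2⟩ (huv.trans h3.symm)).1
    · exact (C.simple k l u v hu ⟨hv.1, hv.2, fun h => absurd h hl⟩ huv).1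
  have hicl : ¬C.closed i := by
    intro h
    obtain ⟨u, h1, h2, h3⟩ := exists_reg_closed i h ei hiI
    exact hij (hreg i j u ej ⟨h1, h2, fun hh => absurd h hh⟩ hjI (h3.trans hP))
  have hjcl : ¬C.closed j := by
    intro h
    obtain ⟨u, h1, h2, h3⟩ := exists_reg_closed j h ej hjI
    exact hij (hreg j i u ei ⟨h1, h2, fun hh => absurd h hh⟩ hiI (h3.trans hP.symm)).symm
  have hcorner : ∀ k w, w ∈ Icc (C.A k) (C.B k) → C.g k w = C.g i ei →
      ¬C.closed k ∧ (w = C.A k ∨ w = C.B k) := by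
    intro k w hw hkw
    have hk : ¬C.closed k := by
      intro h
      obtain ⟨u, h1, h2, h3⟩ := exists_reg_closed k h w hw
      have := hreg k i u ei ⟨h1, h2, fun hh => absurd h hh⟩ hiI (h3.trans hkw)
      exact hicl (this ▸ h)
    refine ⟨hk, ?_⟩
    by_contra hcon
    push Not at hcon
    have hw1 : C.A k < w := lt_of_le_of_ne hw.1 (Ne.symm hcon.1)
    have hw2 : w < C.B k := lt_of_le_of_ne hw.2 hcon.2
    have h1 := hreg k i w ei ⟨hw.1, hw2, fun _ => hw1⟩ hiI hkw
    have h2 := hreg k j w ej ⟨hw.1, hw2, fun _ => hw1⟩ hjI (hkw.trans hP)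
    exact hij (h1.symm.trans h2)
  have htt : tt ei = tt ej := by
    have h1 := congrArg Complex.re hN
    have h2 := congrArg Complex.im hN
    simp only [ee_re, ee_im] at h1 h2
    apply Complex.ext <;> simp [h1, h2]
  -- size of the germs
  set η : ℝ := min 1 (min (C.B i - C.A i) (C.B j - C.A j)) with hη
  have hη0 : 0 < η := lt_min one_pos (lt_min (sub_pos.mpr (C.hAB i)) (sub_pos.mpr (C.hAB j)))
  have hη1 : η ≤ 1 := min_le_left _ _
  have hηi : η ≤ C.B i - C.A i := (min_le_right _ _).trans (min_le_left _ _)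
  have hηj : η ≤ C.B j - C.A j := (min_le_right _ _).trans (min_le_right _ _)
  have hin : ∀ (k : C.ι) (e h : ℝ), IsEnd C k s e → η ≤ C.B k - C.A k → 0 < h → h < η →
      C.A k < e + s * h ∧ e + s * h < C.B k := by
    intro k e h he hk h0 h1
    rcases he with ⟨rfl, rfl⟩ | ⟨rfl, rfl⟩
    · constructor <;> linarith
    · constructor <;> linarith
  have hdot : ∀ (e h : ℝ), 0 < h → h < η → 0 < dt (ee (e + s * h)) (ee e) := by
    intro e h h0 h1
    rw [dt_ee_ee]
    have hh : Real.cos (e - (e + s * h)) = Real.cos h := by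
      rcases hs with rfl | rfl
      · rw [show e - (e + 1 * h) = -h by ring, Real.cos_neg]
      · rw [show e - (e + -1 * h) = h by ring]
    rw [hh]
    have := cos_half h0.le (by linarith)
    linarith
  refine core2 hL (C.g i ei) s ei (4 * C.r1 / C.r0 ^ 2) (C.r0 / 2 * η) hs
    (mul_pos (half_pos C.r0_pos) hη0) ?_ hcorner
  intro x hx
  obtain ⟨h1, y1, h1p, h1l, y1p, y1K, hg1⟩ := germ (C.crv i) C.r0 C.r1 C.r0_pos (C.le_R i)
    (C.R_le i) ei s hs η hη0 hη1 x hx.1 hx.2
  obtain ⟨h2, y2, h2p, h2l, y2p, y2K, hg2⟩ := germ (C.crv j) C.r0 C.r1 C.r0_pos (C.le_R j)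
    (C.R_le j) ej s hs η hη0 hη1 x hx.1 hx.2
  have hPj : (C.crv j).G ej = C.g i ei := hP.symm
  rw [hPj, ← hN, ← htt] at hg2
  have hg1' : C.g i (ei + s * h1) = C.g i ei + x • (s • tt ei) - y1 • ee ei := hg1
  have hg2' : C.g j (ej + s * h2) = C.g i ei + x • (s • tt ei) - y2 • ee ei := hg2
  have hi1 := hin i ei h1 hei hηi h1p h1l
  have hj1 := hin j ej h2 hej hηj h2p h2l
  have hne : y1 ≠ y2 := by
    intro h
    rw [h, ← hg2'] at hg1'
    exact hij (hreg i j _ _ ⟨hi1.1.le, hi1.2, fun _ => hi1.1⟩ ⟨hj1.1.le, hj1.2.le⟩ hg1')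
  have hZ : Continuous (fun y : ℝ => C.g i ei + x • (s • tt ei) - y • ee ei) := by fun_prop
  have hdi := hdot ei h1 h1p h1l
  have hdj : 0 < dt (ee (ej + s * h2)) (ee ei) := by rw [hN]; exact hdot ej h2 h2p h2l
  have down : ∀ (k : C.ι) (u y0 : ℝ), C.Rg k u →
      C.g k u = C.g i ei + x • (s • tt ei) - y0 • ee ei → 0 < dt (ee u) (ee ei) →
      ∃ δ > 0, ∀ y ∈ Ioo y0 (y0 + δ), C.g i ei + x • (s • tt ei) - y • ee ei ∉ C.Y := by
    intro k u y0 hku hgu hd
    obtain ⟨δ, hδ, hT⟩ := sideT hL k u hku (ee ei) hd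
    refine ⟨δ, hδ, fun y hy => ?_⟩
    have := hT (y - y0) ⟨by linarith [hy.1], by linarith [hy.2]⟩
    rw [hgu] at this
    have h4 : C.g i ei + x • (s • tt ei) - y0 • ee ei - (y - y0) • ee ei =
        C.g i ei + x • (s • tt ei) - y • ee ei := by
      rw [sub_smul]; ring
    rwa [h4] at this
  have up : ∀ (k : C.ι) (u y0 : ℝ), C.Rg k u →
      C.g k u = C.g i ei + x • (s • tt ei) - y0 • ee ei → 0 < dt (ee u) (ee ei) →
      ∃ δ > 0, ∀ y ∈ Ioo (y0 - δ) y0, C.g i ei + x • (s • tt ei) - y • ee ei ∈ C.Y := by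
    intro k u y0 hku hgu hd
    obtain ⟨δ, hδ, hT⟩ := sideT' hL k u hku (ee ei) hd
    refine ⟨δ, hδ, fun y hy => ?_⟩
    have := hT (y0 - y) ⟨by linarith [hy.2], by linarith [hy.1]⟩
    rw [hgu] at this
    have h4 : C.g i ei + x • (s • tt ei) - y0 • ee ei + (y0 - y) • ee ei =
        C.g i ei + x • (s • tt ei) - y • ee ei := by
      rw [sub_smul]; ring
    rwa [h4] at this
  rcases lt_or_gt_of_ne hne with hlt | hlt
  · obtain ⟨y, ha, hb, hc, hd⟩ := between C.Y C.isOpen
      (fun y : ℝ => C.g i ei + x • (s • tt ei) - y • ee ei) hZ y1 y2 hlt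
      (down i _ y1 (Or.inr hi1) hg1' hdi) (up j _ y2 (Or.inr hj1) hg2' hdj)
    exact ⟨y, y1p.trans ha, hb.le.trans y2K, hc, hd⟩
  · obtain ⟨y, ha, hb, hc, hd⟩ := between C.Y C.isOpen
      (fun y : ℝ => C.g i ei + x • (s • tt ei) - y • ee ei) hZ y2 y1 hlt
      (down j _ y2 (Or.inr hj1) hg2' hdj) (up i _ y1 (Or.inr hi1) hg1' hdi)
    exact ⟨y, y2p.trans ha, hb.le.trans y1K, hc, hd⟩

theorem thm (C : CTab) : G_CRV → G_LSIDE C → G_R2 C := by
  intro _ hL i j hij
  constructor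
  · intro hP hN
    exact core hL i j hij 1 _ _ (Or.inl ⟨rfl, rfl⟩) (Or.inl ⟨rfl, rfl⟩) hP hN
  · intro hP hN
    exact core hL i j hij (-1) _ _ (Or.inr ⟨rfl, rfl⟩) (Or.inr ⟨rfl, rfl⟩) hP hN

end Pool.Agent.Helper42.DB.PkR2
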